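import Pool.Agent.Y282.WD.Stm2
import Pool.Agent.Y888.WD.Near

/-!
# Project WD (helper282): the local deck involution of `f₀` at large integers
-/

set_option autoImplicit false

open Filter Topology Metric Set

namespace Pool.Agent.Y98.WD

open Pool.Agent.H723R2.LSW Pool.Agent.Y282.WD Pool.Agent.Y888.WD

/-- the square root of a number near one -/
theorem sqrt_near {x : ℂ} {c : ℝ} (hx : ‖x - 1‖ ≤ c) :
    ‖x ^ (2⁻¹ : ℂ) - 1‖ ≤ c := by
  set r := x ^ (2⁻¹ : ℂ) with hr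
  have h2 : r ^ 2 = x := by
    rw [hr]
    exact_mod_cast Complex.cpow_nat_inv_pow x (n := 2) two_ne_zero
  have hre : 0 ≤ r.re := by
    rw [hr, Complex.cpow_inv_two_re]
    exact Real.sqrt_nonneg _
  have h1 : 1 ≤ ‖r + 1‖ := by
    have h3 : (r + 1).re ≤ ‖r + 1‖ := Complex.re_le_norm _
    rw [Complex.add_re, Complex.one_re] at h3
    linarith
  have h4 : ‖r - 1‖ * ‖r + 1‖ = ‖x - 1‖ := by
    rw [← norm_mul, ← h2]
    congr 1
    ring
  calc ‖r - 1‖ = ‖r - 1‖ * 1 := (mul_one _).symm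
    _ ≤ ‖r - 1‖ * ‖r + 1‖ := mul_le_mul_of_nonneg_left h1 (norm_nonneg _)
    _ ≤ c := h4.trans_le hx

/-- the abstract involution -/
theorem inv_abs (F : ℂ → ℂ) (hF : Differentiable ℂ F) (h0 : F 0 = 0) (h1 : deriv F 0 = 0) (s : ℂ)
    (hs : s ≠ 0) (d : ℝ) (hd : 0 < d)
    (hb : ∀ h, ‖h‖ < 20 * d → ‖F h - s * h ^ 2‖ ≤ 1 / 100 * ‖s‖ * ‖h‖ ^ 2) :
    ∃ τ : ℂ → ℂ, ContinuousOn τ (ball 0 (5 * d)) ∧ τ 0 = 0 ∧
      (∀ h ∈ ball (0 : ℂ) (5 * d), F (τ h) = F h ∧ (h ≠ 0 → τ h ≠ h)) ∧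
      ∀ h ∈ ball (0 : ℂ) (5 * d), ∀ k ∈ ball (0 : ℂ) (5 * d), F k = F h → k = h ∨ k = τ h := by
  have hs0 : 0 < ‖s‖ := norm_pos_iff.2 hs
  set g : ℂ → ℂ := dslope (dslope F 0) 0 with hg
  have hgd : Differentiable ℂ g := by
    rw [← differentiableOn_univ, hg, Complex.differentiableOn_dslope univ_mem,
      Complex.differentiableOn_dslope univ_mem, differentiableOn_univ]
    exact hF
  have hFg : ∀ h, F h = h ^ 2 * g h := by
    intro h
    have e1 := sub_smul_dslope F 0 h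
    have e2 := sub_smul_dslope (dslope F 0) 0 h
    rw [dslope_same, h1] at e2
    rw [h0] at e1
    simp only [sub_zero, smul_eq_mul] at e1 e2
    rw [← e1, ← e2]
    ring
  set G : ℂ → ℂ := fun h => g h / s with hG
  have hGd : Differentiable ℂ G := hgd.div_const s
  have hG1' : ∀ h, h ≠ 0 → ‖h‖ < 20 * d → ‖G h - 1‖ ≤ 1 / 100 := by
    intro h hh hhd
    have e := hb h hhd
    rw [hFg] at e
    have e1 : h ^ 2 * g h - s * h ^ 2 = (G h - 1) * (s * h ^ 2) := by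
      simp only [hG]
      field_simp
    rw [e1, norm_mul, norm_mul, norm_pow] at e
    have hh0 : 0 < ‖h‖ := norm_pos_iff.2 hh
    have hp : 0 < ‖s‖ * ‖h‖ ^ 2 := by positivity
    rw [mul_assoc (1 / 100 : ℝ)] at e
    exact le_of_mul_le_mul_right e hp
  have hG1 : ∀ h, ‖h‖ < 20 * d → ‖G h - 1‖ ≤ 1 / 100 := by
    intro h hhd
    by_cases hh : h = 0
    · have hcl : IsClosed {h : ℂ | ‖G h - 1‖ ≤ 1 / 100 ∨ 20 * d ≤ ‖h‖} :=
        (isClosed_le ((hGd.continuous.sub continuous_const).norm) continuous_const).union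
          (isClosed_le continuous_const continuous_norm)
      have hsub : ({0}ᶜ : Set ℂ) ⊆ {h : ℂ | ‖G h - 1‖ ≤ 1 / 100 ∨ 20 * d ≤ ‖h‖} := by
        intro k hk
        by_cases hk2 : ‖k‖ < 20 * d
        · exact Or.inl (hG1' k hk hk2)
        · exact Or.inr (not_lt.1 hk2)
      have huniv := (dense_compl_singleton (0 : ℂ)).closure_eq
      have h3 : h ∈ {h : ℂ | ‖G h - 1‖ ≤ 1 / 100 ∨ 20 * d ≤ ‖h‖} := by
        apply (closure_minimal hsub hcl)
        rw [huniv]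
        exact mem_univ h
      rcases h3 with h3 | h3
      · exact h3
      · exact absurd h3 (not_le.2 hhd)
    · exact hG1' h hh hhd
  set r : ℂ → ℂ := fun h => G h ^ (2⁻¹ : ℂ) with hr
  set ψ : ℂ → ℂ := fun h => h * r h with hψ
  have hψ2 : ∀ h, F h = s * ψ h ^ 2 := by
    intro h
    have h2 : r h ^ 2 = G h := by
      have := Complex.cpow_nat_inv_pow (G h) (n := 2) two_ne_zero
      simpa [hr] using this
    simp only [hψ]
    rw [mul_pow, h2, hFg]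
    simp only [hG]
    field_simp
  have hr1 : ∀ h, ‖h‖ < 20 * d → ‖r h - 1‖ ≤ 1 / 100 := fun h hh => sqrt_near (hG1 h hh)
  have hψd : DifferentiableOn ℂ ψ (ball 0 (20 * d)) := by
    intro h hh
    rw [mem_ball_zero_iff] at hh
    refine (differentiableAt_id.mul (((hGd h).cpow_const ?_))).differentiableWithinAt
    left
    have h2 := hG1 h hh
    have h3 : -‖G h - 1‖ ≤ (G h - 1).re := (abs_le.1 (Complex.abs_re_le_norm _)).1
    rw [Complex.sub_re, Complex.one_re] at h3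
    linarith
  have hψ1 : ∀ h, ‖h‖ < 20 * d → ‖ψ h - h‖ ≤ 1 / 100 * ‖h‖ := by
    intro h hh
    have e : ψ h - h = h * (r h - 1) := by simp only [hψ]; ring
    rw [e, norm_mul, mul_comm]
    exact mul_le_mul_of_nonneg_right (hr1 h hh) (norm_nonneg _)
  have hψ0 : ψ 0 = 0 := by simp [hψ]
  set δ : ℂ → ℂ := fun h => ψ h - h with hδ
  have hδd : DifferentiableOn ℂ δ (ball 0 (20 * d)) := hψd.sub differentiableOn_id
  have hder : ∀ h ∈ ball (0 : ℂ) (10 * d), ‖deriv δ h‖ ≤ 1 / 4 := by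
    intro h hh
    rw [mem_ball_zero_iff] at hh
    have hsub : closedBall h (9 * d) ⊆ ball 0 (20 * d) := by
      intro k hk
      rw [mem_closedBall, dist_eq_norm] at hk
      rw [mem_ball_zero_iff]
      calc ‖k‖ = ‖(k - h) + h‖ := by rw [sub_add_cancel]
        _ ≤ ‖k - h‖ + ‖h‖ := norm_add_le _ _
        _ < 20 * d := by linarith
    have h2 := Complex.norm_deriv_le_of_forall_mem_sphere_norm_le (c := h) (R := 9 * d)
      (C := 1 / 100 * (19 * d)) (f := δ) (by positivity)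
      ((hδd.mono (closure_ball_subset_closedBall.trans hsub)).diffContOnCl) (by
        intro z hz
        have hz' : z ∈ closedBall h (9 * d) := sphere_subset_closedBall hz
        have hz2 := hsub hz'
        rw [mem_ball_zero_iff] at hz2
        refine (hψ1 z hz2).trans ?_
        rw [mem_closedBall, dist_eq_norm] at hz'
        have hz3 : ‖z‖ ≤ 19 * d := by
          calc ‖z‖ = ‖(z - h) + h‖ := by rw [sub_add_cancel]
            _ ≤ ‖z - h‖ + ‖h‖ := norm_add_le _ _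
            _ ≤ 19 * d := by linarith
        gcongr)
    refine h2.trans ?_
    rw [div_le_iff₀ (by positivity)]
    linarith
  have happ : ApproximatesLinearOn ψ ((ContinuousLinearEquiv.refl ℂ ℂ : ℂ ≃L[ℂ] ℂ) : ℂ →L[ℂ] ℂ)
      (ball 0 (10 * d)) (1 / 4) := by
    intro x hx y hy
    have hmv := (convex_ball (0 : ℂ) (10 * d)).norm_image_sub_le_of_norm_deriv_le (𝕜 := ℂ)
      (f := δ) (C := 1 / 4) (fun z hz => ?_) hder hy hx
    · have e : ψ x - ψ y - ((ContinuousLinearEquiv.refl ℂ ℂ : ℂ ≃L[ℂ] ℂ) : ℂ →L[ℂ] ℂ) (x - y) =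
          δ x - δ y := by
        simp only [hδ, ContinuousLinearEquiv.coe_refl, ContinuousLinearMap.coe_id', id]
        ring
      rw [e]
      simpa using hmv
    · refine hδd.differentiableAt (isOpen_ball.mem_nhds ?_)
      rw [mem_ball_zero_iff] at hz ⊢
      linarith
  have hN : ‖(((ContinuousLinearEquiv.refl ℂ ℂ : ℂ ≃L[ℂ] ℂ).symm : ℂ ≃L[ℂ] ℂ) : ℂ →L[ℂ] ℂ)‖₊ = 1 := by
    apply NNReal.eq
    simp
  have hc : Subsingleton ℂ ∨ (1 / 4 : NNReal) <
      ‖(((ContinuousLinearEquiv.refl ℂ ℂ : ℂ ≃L[ℂ] ℂ).symm : ℂ ≃L[ℂ] ℂ) : ℂ →L[ℂ] ℂ)‖₊⁻¹ := by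
    right
    rw [hN, inv_one, div_lt_one (by norm_num)]
    norm_num
  set Ψ := happ.toOpenPartialHomeomorph ψ (ball 0 (10 * d)) hc isOpen_ball with hΨ
  have hΨc : ∀ x, Ψ x = ψ x := fun _ => rfl
  have hΨs : Ψ.source = ball 0 (10 * d) := rfl
  have hinj : InjOn ψ (ball 0 (10 * d)) := happ.injOn hc
  have hsurj : closedBall (0 : ℂ) (6 * d) ⊆ Ψ.target := by
    have h2 := happ.closedBall_subset_target hc isOpen_ball (b := 0) (ε := 8 * d) (by positivity)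
      (fun k hk => by
        rw [mem_closedBall_zero_iff] at hk
        rw [mem_ball_zero_iff]
        linarith)
    refine subset_trans ?_ h2
    rw [hψ0, hN]
    apply closedBall_subset_closedBall
    push_cast
    linarith
  have hneg : ∀ h ∈ ball (0 : ℂ) (5 * d), -ψ h ∈ Ψ.target := by
    intro h hh
    rw [mem_ball_zero_iff] at hh
    apply hsurj
    rw [mem_closedBall_zero_iff, norm_neg]
    have h2 := hψ1 h (by linarith)
    calc ‖ψ h‖ = ‖(ψ h - h) + h‖ := by rw [sub_add_cancel]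
      _ ≤ ‖ψ h - h‖ + ‖h‖ := norm_add_le _ _
      _ ≤ 6 * d := by linarith
  have hsub5 : ball (0 : ℂ) (5 * d) ⊆ ball 0 (10 * d) := ball_subset_ball (by linarith)
  have hτ : ∀ h ∈ ball (0 : ℂ) (5 * d), Ψ.symm (-ψ h) ∈ ball (0 : ℂ) (10 * d) ∧
      ψ (Ψ.symm (-ψ h)) = -ψ h := fun h hh =>
    ⟨Ψ.map_target (hneg h hh), Ψ.right_inv (hneg h hh)⟩
  refine ⟨fun h => Ψ.symm (-ψ h), ?_, ?_, fun h hh => ⟨?_, fun hne heq => ?_⟩, ?_⟩
  · refine Ψ.continuousOn_symm.comp ?_ (fun h hh => hneg h hh)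
    exact (hψd.continuousOn.mono (ball_subset_ball (by linarith))).neg
  · have h2 : (0 : ℂ) ∈ Ψ.source := by
      rw [hΨs, mem_ball_zero_iff, norm_zero]
      positivity
    have h3 := Ψ.left_inv h2
    rw [hΨc, hψ0] at h3
    show Ψ.symm (-ψ 0) = 0
    rw [hψ0, neg_zero, h3]
  · show F (Ψ.symm (-ψ h)) = F h
    rw [hψ2, hψ2 h, (hτ h hh).2]
    ring
  · have h2 := (hτ h hh).2
    have heq' : Ψ.symm (-ψ h) = h := heq
    rw [heq'] at h2
    have h3 : ψ h = ψ 0 := by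
      rw [hψ0]
      linear_combination (1 / 2 : ℂ) * h2
    exact hne (hinj (hsub5 hh) (by rw [mem_ball_zero_iff, norm_zero]; positivity) h3)
  · intro h hh k hk hFk
    rw [hψ2, hψ2 h] at hFk
    have h2 := mul_left_cancel₀ hs hFk
    rcases sq_eq_sq_iff_eq_or_eq_neg.1 h2 with h3 | h3
    · exact Or.inl (hinj (hsub5 hk) (hsub5 hh) h3)
    · right
      show k = Ψ.symm (-ψ h)
      rw [← h3]
      exact (Ψ.left_inv (show k ∈ Ψ.source from hsub5 hk)).symm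

/-- the complex form of the expansion -/
theorem cplx : ∃ K : ℝ, 1 ≤ K ∧ ∀ m : ℤ, ∃ s : ℂ, ‖s‖ = bt m ∧ ∀ h : ℂ, ‖h‖ ≤ 1 →
    ‖f₀ (m + h) - (T m : ℂ) - s * h ^ 2‖ ≤ K * ‖h‖ ^ 3 * (1 + bt m * ‖h‖) := by
  obtain ⟨C, hC0, hC⟩ := bds
  have hpp := Real.pi_pos
  refine ⟨2 * C ^ 2 + 2 * Real.pi * C + 1, by nlinarith [mul_nonneg hpp.le hC0, sq_nonneg C],
    fun m => ?_⟩
  obtain ⟨ε, hε, h1, -⟩ := key m
  have hb : bt m = Real.pi ^ 2 / 4 * ‖(m : ℂ) + 1 / 2‖ := by rw [nm]; rfl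
  have hb' : ‖(m : ℂ) + 1 / 2‖ = 4 / Real.pi ^ 2 * bt m := by
    rw [hb]
    field_simp
  have hb0 : 0 ≤ bt m := by rw [hb]; positivity
  refine ⟨ε * ((m : ℂ) + 1 / 2) * (Real.pi ^ 2 / 4), ?_, fun h hz => ?_⟩
  · rw [norm_mul, norm_mul, hε, norm_div, norm_pow, npi, hb, Complex.norm_ofNat]
    ring
  rw [h1]
  obtain ⟨-, bA, bB, bD⟩ := hC h hz
  have e1 : fA h + ε / 2 * fB h + ε / 2 * ((m : ℂ) + 1 / 2) * fD h -
      ε * ((m : ℂ) + 1 / 2) * (Real.pi ^ 2 / 4) * h ^ 2 = fA h + ε / 2 * fB h +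
        ε / 2 * ((m : ℂ) + 1 / 2) * (fD h - Real.pi ^ 2 / 2 * h ^ 2) := by ring
  rw [e1]
  have e3 : ‖ε / 2‖ = 1 / 2 := by rw [norm_div, hε]; norm_num
  have h0 : 0 ≤ ‖h‖ := norm_nonneg h
  calc ‖fA h + ε / 2 * fB h + ε / 2 * ((m : ℂ) + 1 / 2) * (fD h - Real.pi ^ 2 / 2 * h ^ 2)‖
      ≤ ‖fA h‖ + ‖ε / 2 * fB h‖ +
        ‖ε / 2 * ((m : ℂ) + 1 / 2) * (fD h - Real.pi ^ 2 / 2 * h ^ 2)‖ := norm_add₃_le
    _ = ‖fA h‖ + 1 / 2 * ‖fB h‖ +
        1 / 2 * (4 / Real.pi ^ 2 * bt m) * ‖fD h - Real.pi ^ 2 / 2 * h ^ 2‖ := by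
        rw [norm_mul, norm_mul, norm_mul, e3, hb']
    _ ≤ 2 * C ^ 2 * ‖h‖ ^ 3 + 1 / 2 * (Real.pi * C * ‖h‖ ^ 3) +
        1 / 2 * (4 / Real.pi ^ 2 * bt m) * (Real.pi ^ 3 * C * ‖h‖ ^ 4) := by gcongr
    _ = (2 * C ^ 2 + 1 / 2 * (Real.pi * C)) * ‖h‖ ^ 3 +
        2 * Real.pi * C * ‖h‖ ^ 3 * (bt m * ‖h‖) := by
        field_simp
        ring
    _ ≤ (2 * C ^ 2 + 2 * Real.pi * C + 1) * ‖h‖ ^ 3 * (1 + bt m * ‖h‖) := by
        have h3 : 0 ≤ ‖h‖ ^ 3 := by positivity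
        have h4 : 0 ≤ ‖h‖ ^ 3 * (bt m * ‖h‖) := by positivity
        have h5 : 0 ≤ Real.pi * C := by positivity
        nlinarith [mul_nonneg h3 h5, mul_nonneg h4 h5, mul_nonneg h4 (sq_nonneg C)]

theorem t_INV : S_INV := by
  obtain ⟨K, hK, hm⟩ := cplx
  refine ⟨42000 * K, fun m hb => ?_⟩
  obtain ⟨s, hs, hE⟩ := hm m
  have hb0 : 0 < bt m := by linarith
  have hs0 : s ≠ 0 := by
    intro h
    rw [h, norm_zero] at hs
    linarith
  set b := bt m with hbd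
  have hF : Differentiable ℂ (fun h : ℂ => f₀ ((m : ℂ) + h) - (T m : ℂ)) :=
    (f₀_differentiable.comp ((differentiable_const _).add differentiable_id)).sub
      (differentiable_const _)
  have hF0 : (fun h : ℂ => f₀ ((m : ℂ) + h) - (T m : ℂ)) 0 = 0 := by
    simp only [add_zero]
    rw [f₀_int, sub_self]
  have hF1 : deriv (fun h : ℂ => f₀ ((m : ℂ) + h) - (T m : ℂ)) 0 = 0 := by
    have h1 : HasDerivAt f₀ 0 ((m : ℂ) + 0) := by
      rw [add_zero]
      exact f₀_deriv_int m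
    have h2 : HasDerivAt (fun h : ℂ => (m : ℂ) + h) 1 0 := (hasDerivAt_id (0 : ℂ)).const_add _
    have h3 := (h1.comp (0 : ℂ) h2).sub_const (T m : ℂ)
    have h4 := h3.deriv
    rw [zero_mul] at h4
    exact h4
  obtain ⟨τ, hτc, hτ0, hτ1, hτ2⟩ := inv_abs (fun h : ℂ => f₀ ((m : ℂ) + h) - (T m : ℂ)) hF hF0 hF1
    s hs0 (1 / b) (by positivity) (by
      intro h hh
      have h20 : ‖h‖ * b < 20 := by
        have : 20 * (1 / b) * b = 20 := by field_simp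
        calc ‖h‖ * b < 20 * (1 / b) * b := mul_lt_mul_of_pos_right hh hb0
          _ = 20 := this
      have hh1 : ‖h‖ ≤ 1 := by
        by_contra hcon
        push Not at hcon
        nlinarith
      have h2 := hE h hh1
      refine h2.trans ?_
      rw [hs]
      have h0 : 0 ≤ ‖h‖ := norm_nonneg h
      have h3 : K * ‖h‖ * (1 + b * ‖h‖) ≤ 1 / 100 * b := by
        have h4 : K * ‖h‖ * (1 + b * ‖h‖) ≤ K * ‖h‖ * 21 := by
          apply mul_le_mul_of_nonneg_left _ (by positivity)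
          linarith
        have h5 : K * ‖h‖ * 21 * b ≤ 1 / 100 * b * b := by
          calc K * ‖h‖ * 21 * b = K * 21 * (‖h‖ * b) := by ring
            _ ≤ K * 21 * 20 := by gcongr
            _ ≤ 1 / 100 * b := by linarith
            _ ≤ 1 / 100 * b * b := by nlinarith
        exact h4.trans (le_of_mul_le_mul_right h5 hb0)
      calc K * ‖h‖ ^ 3 * (1 + b * ‖h‖) = (K * ‖h‖ * (1 + b * ‖h‖)) * ‖h‖ ^ 2 := by ring
        _ ≤ 1 / 100 * b * ‖h‖ ^ 2 := by gcongr)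
  have e5 : 5 * (1 / b) = 5 / b := by ring
  rw [e5] at hτc hτ1 hτ2
  have hball : ∀ z : ℂ, z ∈ ball (m : ℂ) (5 / b) → z - m ∈ ball (0 : ℂ) (5 / b) := by
    intro z hz
    rw [mem_ball, dist_eq_norm] at hz
    rw [mem_ball_zero_iff]
    exact hz
  refine ⟨fun z => m + τ (z - m), ?_, ?_, fun z hz => ⟨?_, fun hne heq => ?_⟩, ?_⟩
  · exact continuousOn_const.add (hτc.comp (continuousOn_id.sub continuousOn_const) hball)
  · show (m : ℂ) + τ ((m : ℂ) - m) = m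
    rw [sub_self, hτ0, add_zero]
  · have h2 := (hτ1 _ (hball z hz)).1
    have h3 : f₀ ((m : ℂ) + τ (z - m)) - (T m : ℂ) = f₀ ((m : ℂ) + (z - m)) - (T m : ℂ) := h2
    rw [add_sub_cancel] at h3
    exact sub_left_injective h3
  · refine (hτ1 _ (hball z hz)).2 (sub_ne_zero.2 hne) ?_
    have h3 : (m : ℂ) + τ (z - m) = z := heq
    rw [eq_sub_iff_add_eq, add_comm]
    exact h3
  · intro z hz w hw hzw
    have h2 := hτ2 _ (hball z hz) _ (hball w hw) (by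
      show f₀ ((m : ℂ) + (w - m)) - (T m : ℂ) = f₀ ((m : ℂ) + (z - m)) - (T m : ℂ)
      rw [add_sub_cancel, add_sub_cancel, hzw])
    rcases h2 with h2 | h2
    · exact Or.inl (sub_left_injective h2)
    · right
      show w = (m : ℂ) + τ (z - m)
      rw [← h2, add_sub_cancel]

end Pool.Agent.Y98.WD
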